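import Mathlib

set_option autoImplicit false

namespace Pool.Agent.Results.MP_199736_pr.Diamond

noncomputable def Q (u : ℝ) : Bool × Bool → Bool × Bool → ℝ
  | (false, false), (false, false) => (8 + 34 * u + 8 * u ^ 2) / 50
  | (false, false), (true, false) => (2 + 6 * u - 8 * u ^ 2) / 50
  | (false, false), (false, true) => (32 - 24 * u - 8 * u ^ 2) / 50
  | (false, false), (true, true) => (8 - 16 * u + 8 * u ^ 2) / 50
  | (true, false), (false, false) => (8 + 24 * u - 32 * u ^ 2) / 50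
  | (true, false), (true, false) => (2 + 16 * u + 32 * u ^ 2) / 50
  | (true, false), (false, true) => (32 - 64 * u + 32 * u ^ 2) / 50
  | (true, false), (true, true) => (8 + 24 * u - 32 * u ^ 2) / 50
  | (false, true), (false, false) => (8 - 6 * u - 2 * u ^ 2) / 50
  | (false, true), (true, false) => (2 - 4 * u + 2 * u ^ 2) / 50
  | (false, true), (false, true) => (32 + 16 * u + 2 * u ^ 2) / 50
  | (false, true), (true, true) => (8 - 6 * u - 2 * u ^ 2) / 50
  | (true, true), (false, false) => (8 - 16 * u + 8 * u ^ 2) / 50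
  | (true, true), (true, false) => (2 + 6 * u - 8 * u ^ 2) / 50
  | (true, true), (false, true) => (32 - 24 * u - 8 * u ^ 2) / 50
  | (true, true), (true, true) => (8 + 34 * u + 8 * u ^ 2) / 50

lemma sum_eq (A : Finset (Bool × Bool)) (f : Bool × Bool → ℝ) : ∑ z ∈ A, f z =
    (if (true, true) ∈ A then f (true, true) else 0) +
    (if (true, false) ∈ A then f (true, false) else 0) +
    ((if (false, true) ∈ A then f (false, true) else 0) +
    (if (false, false) ∈ A then f (false, false) else 0)) := by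
  rw [← Finset.univ_inter A, ← Finset.sum_ite_mem, Fintype.sum_prod_type]
  simp only [Fintype.sum_bool, Finset.univ_inter]

theorem result : ∃ (P : ℝ → Matrix (Bool × Bool) (Bool × Bool) ℝ) (p : Bool × Bool → ℝ),
    Continuous P ∧ P 0 = 1 ∧ (∀ s t, P (s + t) = P s * P t) ∧
    (∀ t, 0 ≤ t → ∀ x, (∀ y, 0 ≤ P t x y) ∧ ∑ y, P t x y = 1) ∧
    (∀ x, 0 < p x) ∧ ∑ x, p x = 1 ∧ (∀ t x y, p x * P t x y = p y * P t y x) ∧
    (∀ t, 0 ≤ t → ∀ x y, x ≤ y → ∀ A : Finset (Bool × Bool), IsUpperSet (A : Set (Bool × Bool)) →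
      ∑ z ∈ A, P t x z ≤ ∑ z ∈ A, P t y z) ∧
    ∀ t, 0 < t → ∃ (x y : Bool × Bool) (A : Finset (Bool × Bool)), ∀ B : Finset (Bool × Bool),
      |∑ z ∈ B, P t ⊤ z - ∑ z ∈ B, P t ⊥ z| < |∑ z ∈ A, P t x z - ∑ z ∈ A, P t y z| := by
  have hu : ∀ t : ℝ, 0 ≤ t → Real.exp (-t / 2) ≤ 1 := fun t ht =>
    Real.exp_le_one_iff.2 (by linarith)
  refine ⟨fun t => Matrix.of (Q (Real.exp (-t / 2))), Q 0 ⊥, ?_, ?_, fun s t => ?_,
    fun t ht x => ?_, ?_, ?_, fun t => ?_, fun t ht x y hxy A hA => ?_, fun t ht => ?_⟩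
  · refine continuous_matrix ?_
    rintro ⟨_ | _, _ | _⟩ ⟨_ | _, _ | _⟩ <;> simp only [Matrix.of_apply, Q] <;> fun_prop
  · ext ⟨_ | _, _ | _⟩ ⟨_ | _, _ | _⟩ <;> simp [Q, Matrix.one_apply] <;> norm_num
  · beta_reduce
    rw [show -(s + t) / 2 = -s / 2 + -t / 2 by ring, Real.exp_add]
    ext ⟨_ | _, _ | _⟩ ⟨_ | _, _ | _⟩ <;>
      simp only [Matrix.mul_apply, Fintype.sum_prod_type, Fintype.sum_bool, Matrix.of_apply, Q] <;>
      ring
  · have h1 := hu t ht
    have h2 := Real.exp_pos (-t / 2)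
    beta_reduce
    generalize Real.exp (-t / 2) = u at h1 h2
    have b1 : 0 ≤ u * (1 - u) := mul_nonneg h2.le (by linarith)
    have b2 := sq_nonneg (1 - u)
    have b3 := sq_nonneg u
    constructor
    · rcases x with ⟨_ | _, _ | _⟩ <;> rintro ⟨_ | _, _ | _⟩ <;> simp only [Matrix.of_apply, Q] <;>
        linarith
    · rcases x with ⟨_ | _, _ | _⟩ <;>
        simp only [Fintype.sum_prod_type, Fintype.sum_bool, Matrix.of_apply, Q] <;> ring
  · change ∀ x, 0 < Q 0 (false, false) x
    rintro ⟨_ | _, _ | _⟩ <;> simp [Q]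
  · change ∑ x, Q 0 (false, false) x = 1
    simp only [Fintype.sum_prod_type, Fintype.sum_bool, Q]
    norm_num
  · change ∀ x y, Q 0 (false, false) x * _ = Q 0 (false, false) y * _
    rintro ⟨_ | _, _ | _⟩ ⟨_ | _, _ | _⟩ <;> simp only [Matrix.of_apply, Q] <;> ring
  · have h1 := hu t ht
    have h2 := Real.exp_pos (-t / 2)
    beta_reduce
    generalize Real.exp (-t / 2) = u at h1 h2
    have b1 : 0 ≤ u * (1 - u) := mul_nonneg h2.le (by linarith)
    have b2 := sq_nonneg (1 - u)
    have b3 := sq_nonneg u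
    have a1 : (false, false) ∈ A → (true, false) ∈ A := fun h => hA (by decide) h
    have a2 : (false, false) ∈ A → (false, true) ∈ A := fun h => hA (by decide) h
    have a3 : (true, false) ∈ A → (true, true) ∈ A := fun h => hA (by decide) h
    have a4 : (false, true) ∈ A → (true, true) ∈ A := fun h => hA (by decide) h
    rw [sum_eq, sum_eq]
    rcases x with ⟨_ | _, _ | _⟩ <;> rcases y with ⟨_ | _, _ | _⟩ <;>
      first
      | exact absurd hxy (by decide)
      | (simp only [Matrix.of_apply, Q]; split_ifs <;> first | contradiction | linarith | tauto)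
  · have h1 : Real.exp (-t / 2) < 1 := Real.exp_lt_one_iff.2 (by linarith)
    have h2 := Real.exp_pos (-t / 2)
    beta_reduce
    generalize Real.exp (-t / 2) = u at h1 h2
    have b1 : 0 ≤ u * (1 - u) := mul_nonneg h2.le (by linarith)
    have b2 := sq_nonneg (1 - u)
    have b3 := sq_nonneg u
    refine ⟨(false, true), (true, false), {(false, true)}, fun B => ?_⟩
    change |∑ z ∈ B, Q u (true, true) z - ∑ z ∈ B, Q u (false, false) z| < _
    refine lt_of_lt_of_le ?_ (le_abs_self _)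
    rw [sum_eq B, sum_eq B, abs_lt]
    simp only [Finset.sum_singleton, Matrix.of_apply, Q]
    have b4 : 0 < u * (1 - u) := mul_pos h2 (by linarith)
    constructor <;> split_ifs <;> linarith

end Pool.Agent.Results.MP_199736_pr.Diamond
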